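import Mathlib
import Pool.Agent.N576.MX.Defs
import Pool.Agent.N335.MX_Rolle
import Pool.Agent.N505.MX_ratpow
import Pool.Agent.N853.MX_PARENTS

/-!
Project MX (helper576), part CORE (helper681): two runs with fixed suffixes have few equal values
along a line.
-/

set_option autoImplicit false

namespace Pool.Agent.N681.MX

open Pool.Agent.H499R2 (Nd desc root step lf rt valid_root desc_snoc pt pt_pos sz FF ga em_inj g_inj lam_quad lam_lower)
open Pool.Agent.N576.MX

/-! ### sums of exponentials -/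

lemma sum_top (b : ℕ) (α : ℝ) (hα : 0 < α) (p : ℕ → ℝ) (v : ℝ) (hv : v = b * α) :
    ∑ e ∈ Finset.range (2 * b + 1), (if ((e : ℝ) - b) * α = v then p e else 0) = p (2 * b) := by
  rw [Finset.sum_eq_single (2 * b)]
  · rw [if_pos]
    rw [hv]; push_cast; ring
  · intro e he hne
    rw [if_neg]
    intro h
    rw [hv] at h
    have h1 := mul_right_cancel₀ hα.ne' h
    apply hne
    have h2 : (e : ℝ) = 2 * b := by linarith
    exact_mod_cast h2
  · intro h
    exact absurd (Finset.mem_range.mpr (by omega)) h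

lemma sum_bot (b : ℕ) (α : ℝ) (hα : 0 < α) (p : ℕ → ℝ) (v : ℝ) (hv : v = -(b * α)) :
    ∑ e ∈ Finset.range (2 * b + 1), (if ((e : ℝ) - b) * α = v then p e else 0) = p 0 := by
  rw [Finset.sum_eq_single 0]
  · rw [if_pos]
    rw [hv]; push_cast; ring
  · intro e he hne
    rw [if_neg]
    intro h
    have h3 : ((e : ℝ) - b) * α = (-b) * α := by rw [h, hv]; ring
    have h1 := mul_right_cancel₀ hα.ne' h3
    apply hne
    have h2 : (e : ℝ) = 0 := by linarith
    exact_mod_cast h2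
  · intro h
    exact absurd (Finset.mem_range.mpr (by omega)) h

lemma sum_none (b : ℕ) (α : ℝ) (hα : 0 < α) (p : ℕ → ℝ) (v : ℝ) (hv : b * α < v) :
    ∑ e ∈ Finset.range (2 * b + 1), (if ((e : ℝ) - b) * α = v then p e else 0) = 0 := by
  apply Finset.sum_eq_zero
  intro e he
  rw [if_neg]
  intro h
  have h1 : (e : ℝ) ≤ 2 * b := by
    have := Finset.mem_range.mp he
    exact_mod_cast (by omega : e ≤ 2 * b)
  have h2 : ((e : ℝ) - b) * α ≤ b * α := mul_le_mul_of_nonneg_right (by linarith) hα.le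
  linarith

lemma two_sums (b b' : ℕ) (α β : ℝ) (hα : 0 < α) (hβ : 0 < β) (p p' : ℕ → ℝ) (Z : Finset ℝ)
    (hZ : ∀ τ ∈ Z, ∑ e ∈ Finset.range (2 * b + 1), p e * Real.exp ((((e : ℝ) - b) * α) * τ) =
      ∑ e ∈ Finset.range (2 * b' + 1), p' e * Real.exp ((((e : ℝ) - b') * β) * τ))
    (hc : 2 * b + 2 * b' + 2 ≤ Z.card) (h0 : 0 < p (2 * b)) (h0' : 0 < p' (2 * b')) :
    b * α = b' * β ∧ p (2 * b) = p' (2 * b') ∧ p 0 = p' 0 := by
  classical
  have key := Pool.Agent.N335.MXRolle.exp_zeros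
    (ι := Fin (2 * b + 1) ⊕ Fin (2 * b' + 1))
    (Sum.elim (fun e => p e.1) (fun e => - p' e.1))
    (Sum.elim (fun e => ((e.1 : ℝ) - b) * α) (fun e => ((e.1 : ℝ) - b') * β)) Z
    (by
      intro t ht
      rw [Fintype.sum_sum_type]
      simp only [Sum.elim_inl, Sum.elim_inr]
      rw [Fin.sum_univ_eq_sum_range (fun e => p e * Real.exp ((((e : ℝ) - b) * α) * t)) (2 * b + 1),
        Fin.sum_univ_eq_sum_range (fun e => - p' e * Real.exp ((((e : ℝ) - b') * β) * t)) (2 * b' + 1),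
        hZ t ht]
      simp only [neg_mul, Finset.sum_neg_distrib]
      ring)
    (by simp only [Fintype.card_sum, Fintype.card_fin]; omega)
  have key' : ∀ v : ℝ, ∑ e ∈ Finset.range (2 * b + 1), (if ((e : ℝ) - b) * α = v then p e else 0) =
      ∑ e ∈ Finset.range (2 * b' + 1), (if ((e : ℝ) - b') * β = v then p' e else 0) := by
    intro v
    have h : (∑ e : Fin (2 * b + 1), (if ((e.1 : ℝ) - b) * α = v then p e.1 else 0)) +
        ∑ e : Fin (2 * b' + 1), (if ((e.1 : ℝ) - b') * β = v then - p' e.1 else 0) = 0 := by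
      refine Eq.trans ?_ (key v)
      rw [Fintype.sum_sum_type]
      rfl
    rw [Fin.sum_univ_eq_sum_range (fun e => if ((e : ℝ) - b) * α = v then p e else 0) (2 * b + 1),
        Fin.sum_univ_eq_sum_range (fun e => if ((e : ℝ) - b') * β = v then - p' e else 0) (2 * b' + 1)] at h
    have h2 : ∑ e ∈ Finset.range (2 * b' + 1), (if ((e : ℝ) - b') * β = v then - p' e else 0) =
        - ∑ e ∈ Finset.range (2 * b' + 1), (if ((e : ℝ) - b') * β = v then p' e else 0) := by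
      rw [← Finset.sum_neg_distrib]
      apply Finset.sum_congr rfl
      intro e _
      split_ifs <;> simp
    rw [h2] at h
    linarith
  rcases lt_trichotomy (b * α) (b' * β) with h | h | h
  · exfalso
    have h1 := key' (b' * β)
    rw [sum_none b α hα p _ h, sum_top b' β hβ p' _ rfl] at h1
    linarith
  · refine ⟨h, ?_, ?_⟩
    · have h1 := key' (b * α)
      rwa [sum_top b α hα p _ rfl, sum_top b' β hβ p' _ h] at h1
    · have h1 := key' (-(b * α))
      rwa [sum_bot b α hα p _ rfl, sum_bot b' β hβ p' _ (by rw [h])] at h1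
  · exfalso
    have h1 := key' (b * α)
    rw [sum_top b α hα p _ rfl, sum_none b' β hβ p' _ h] at h1
    linarith

lemma val {L : ℝ} (hL : 0 < L) (P : Polynomial ℝ) (b m : ℕ) (hP : P.natDegree ≤ 2 * b) (F : ℝ)
    (hF : F * (L ^ m) ^ b = P.eval (L ^ m)) :
    F = ∑ e ∈ Finset.range (2 * b + 1), P.coeff e * Real.exp (((e : ℝ) - b) * (Real.log L * m)) := by
  have h1 : L ^ m = Real.exp (Real.log L * m) := by
    rw [mul_comm, Real.exp_nat_mul, Real.exp_log hL]
  rw [h1] at hF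
  set q := Real.log L * m with hq
  rw [Polynomial.eval_eq_sum_range' (by omega : P.natDegree < 2 * b + 1)] at hF
  have h2 : F = (∑ i ∈ Finset.range (2 * b + 1), P.coeff i * Real.exp q ^ i) / (Real.exp q ^ b) := by
    rw [← hF]; field_simp
  rw [h2, Finset.sum_div]
  apply Finset.sum_congr rfl
  intro e _
  rw [sub_mul, Real.exp_sub, Real.exp_nat_mul, Real.exp_nat_mul, mul_div_assoc]

/-! ### the tree -/

lemma lam_eq (u : ℤ) : lam u = Pool.Agent.H499R2.lam (u : ℝ) := rfl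

lemma lam_gt {u : ℤ} (hu : 1 ≤ u) : 1 < lam u := by
  have hu' : (1 : ℝ) ≤ u := by exact_mod_cast hu
  have := lam_lower (u : ℝ) hu'
  rw [lam_eq]; linarith

lemma lam_sq {u : ℤ} (hu : 1 ≤ u) : lam u ^ 2 - 3 * u * lam u + 1 = 0 := by
  have hu' : (1 : ℝ) ≤ u := by exact_mod_cast hu
  have := lam_quad (u : ℝ) hu'
  rw [lam_eq]; nlinarith

lemma rn_succ (g : List Bool) (c : Bool) (m : ℕ) : rn g c (m + 1) = rn g c m ++ [c] := by
  unfold rn
  rw [List.replicate_succ', List.append_assoc]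

lemma rn_zero (g : List Bool) (c : Bool) : rn g c 0 = g := by
  unfold rn; simp

lemma run_true (g : List Bool) (m : ℕ) :
    (desc root (rn g true m)).a = piv g true ∧ (desc root (rn g true m)).b = wv g true m := by
  refine ⟨?_, by simp [wv]⟩
  induction m with
  | zero => rw [rn_zero]; simp [piv]
  | succ m ih => rw [rn_succ, desc_snoc, ← ih]; rfl

lemma run_false (g : List Bool) (m : ℕ) :
    (desc root (rn g false m)).b = piv g false ∧ (desc root (rn g false m)).a = wv g false m := by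
  refine ⟨?_, by simp [wv]⟩
  induction m with
  | zero => rw [rn_zero]; simp [piv]
  | succ m ih => rw [rn_succ, desc_snoc, ← ih]; rfl

lemma piv_pos (g : List Bool) (c : Bool) : 1 ≤ piv g c := by
  have hv := valid_root.desc g
  have ha : 1 ≤ (desc root g).a := by exact_mod_cast hv.mt.ha
  have hb : 1 ≤ (desc root g).b := by exact_mod_cast hv.mt.hb
  cases c
  · simpa [piv] using hb
  · simpa [piv] using ha

lemma ab_ne (l : List Bool) : (desc root l).a ≠ (desc root l).b := by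
  induction l using List.reverseRecOn with
  | nil => decide
  | append_singleton l d ih =>
    rw [desc_snoc]
    have hv := valid_root.desc l
    have ha : 1 ≤ (desc root l).a := by exact_mod_cast hv.mt.ha
    have hb : 1 ≤ (desc root l).b := by exact_mod_cast hv.mt.hb
    have hc : 2 * (desc root l).a * (desc root l).b ≤ (desc root l).c := by exact_mod_cast hv.mt.c_ge
    cases d
    · change (desc root l).c ≠ (desc root l).b
      nlinarith
    · change (desc root l).a ≠ (desc root l).c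
      nlinarith

lemma FF_c {l l' : List Bool} (h : FF l = FF l') : (desc root l).c = (desc root l').c := by
  have hv := valid_root.desc l
  have hv' := valid_root.desc l'
  exact g_inj (by exact_mod_cast hv.mt.c_one) (by exact_mod_cast hv'.mt.c_one) h

lemma jj_bd (c : Bool) (s : List Bool) : 1 ≤ jj c s ∧ jj c s + 1 ≤ sz s := by
  have := pt_pos s
  unfold jj sz
  cases c <;> simp <;> omega

/-! ### powers -/

/-- the algebraic part -/
lemma algebra {M : ℝ} (hM : 1 < M) {u : ℤ} (hu : 1 ≤ u) (hlam : M ^ 2 - 3 * u * M + 1 = 0)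
    {x y x' y' : ℝ} (hx : 0 < x) (_hx' : 0 < x') (hxy : x * y = x' * y')
    {b j j' m t : ℕ} (hj : 1 ≤ j) (hjb : j + 1 ≤ b) (hj' : 1 ≤ j') (hjb' : j' + 1 ≤ b)
    (h2 : x ^ b * M ^ (j + b * m) = x' ^ b * M ^ (j' + b * t))
    {k k' : ℕ} {A B A' B' : ℤ} (hA : 1 ≤ A) (hAu : A ≤ u) (hB : 1 ≤ B) (hBu : B ≤ u)
    (hm : A ^ 2 + B ^ 2 + u ^ 2 = 3 * u * A * B) (c1 : IsCoprime A u) (c2 : IsCoprime B u) (c3 : IsCoprime A B)
    (eA : (A : ℝ) = (x * M⁻¹ ^ (k + 1) + y * M ^ (k + 1)) / 3) (eB : (B : ℝ) = (x * M⁻¹ ^ k + y * M ^ k) / 3)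
    (hA' : 1 ≤ A') (hAu' : A' ≤ u) (hB' : 1 ≤ B') (hBu' : B' ≤ u)
    (hm' : A' ^ 2 + B' ^ 2 + u ^ 2 = 3 * u * A' * B') (c1' : IsCoprime A' u) (c2' : IsCoprime B' u)
    (c3' : IsCoprime A' B')
    (eA' : (A' : ℝ) = (x' * M⁻¹ ^ (k' + 1) + y' * M ^ (k' + 1)) / 3)
    (eB' : (B' : ℝ) = (x' * M⁻¹ ^ k' + y' * M ^ k') / 3) :
    j = j' ∧ ∀ i : ℕ, x * M ^ (m + i) + y * M⁻¹ ^ (m + i) = x' * M ^ (t + i) + y' * M⁻¹ ^ (t + i) := by
  have hM0 : M ≠ 0 := by positivity
  have hD : 0 < M - M⁻¹ := by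
    have : M⁻¹ < 1 := inv_lt_one_of_one_lt₀ hM
    linarith
  have e1 : ∀ (z w : ℝ) (n : ℕ), (z * M⁻¹ ^ n + w * M ^ n) / 3 - (z * M⁻¹ ^ (n + 1) + w * M ^ (n + 1)) / 3 * M⁻¹ =
      z / 3 * M⁻¹ ^ (n + 1) * (M - M⁻¹) := by
    intro z w n
    have h3 : M * M⁻¹ = 1 := mul_inv_cancel₀ hM0
    rw [pow_succ, pow_succ]
    linear_combination (- w * M ^ n / 3 - z / 3 * M⁻¹ ^ n) * h3
  have eD : (B : ℝ) - A * M⁻¹ = x / 3 * M⁻¹ ^ (k + 1) * (M - M⁻¹) := by rw [eA, eB]; exact e1 x y k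
  have eD' : (B' : ℝ) - A' * M⁻¹ = x' / 3 * M⁻¹ ^ (k' + 1) * (M - M⁻¹) := by rw [eA', eB']; exact e1 x' y' k'
  have hz : x' ^ b = x ^ b * M ^ (((j + b * m : ℕ) : ℤ) - ((j' + b * t : ℕ) : ℤ)) := by
    rw [zpow_sub₀ hM0, zpow_natCast, zpow_natCast, ← mul_div_assoc, h2]
    field_simp
  have hb : 1 ≤ b := by omega
  have hrel : ((B' : ℝ) - A' * M⁻¹) ^ b = ((B : ℝ) - A * M⁻¹) ^ b *
      M ^ ((((j + b * m : ℕ) : ℤ) - ((j' + b * t : ℕ) : ℤ)) + b * ((k : ℤ) - k')) := by
    rw [eD, eD', mul_pow, mul_pow, mul_pow, mul_pow, div_pow, div_pow, hz]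
    have h5 : (M⁻¹ ^ (k' + 1)) ^ b = (M⁻¹ ^ (k + 1)) ^ b * M ^ ((b : ℤ) * ((k : ℤ) - k')) := by
      rw [← pow_mul, ← pow_mul, ← zpow_natCast, ← zpow_natCast, inv_zpow', inv_zpow', ← zpow_add₀ hM0]
      congr 1
      push_cast; ring
    rw [h5, zpow_add₀ hM0]
    ring
  obtain ⟨hAA, hBB⟩ := Pool.Agent.N853.MX.same_parents hu hA hB hA' hB' hAu hBu hAu' hBu' hm hm' c1 c2 c3
    c1' c2' c3' hM hlam hb hrel
  have hxx : x' = x * M ^ ((k' : ℤ) - k) := by
    have h6 : x / 3 * M⁻¹ ^ (k + 1) * (M - M⁻¹) = x' / 3 * M⁻¹ ^ (k' + 1) * (M - M⁻¹) := by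
      rw [← eD, ← eD', hAA, hBB]
    have h7 := mul_right_cancel₀ hD.ne' h6
    have h8 : x * M⁻¹ ^ (k + 1) = x' * M⁻¹ ^ (k' + 1) := by linarith
    have h9 : x' = x * M⁻¹ ^ (k + 1) * M ^ (k' + 1) := by
      rw [h8, mul_assoc, ← mul_pow, inv_mul_cancel₀ hM0, one_pow, mul_one]
    rw [h9, ← zpow_natCast, ← zpow_natCast, inv_zpow', mul_assoc, ← zpow_add₀ hM0]
    congr 2
    push_cast; ring
  have hexp : (b : ℤ) * ((k' : ℤ) - k) = ((j + b * m : ℕ) : ℤ) - ((j' + b * t : ℕ) : ℤ) := by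
    have h10 : x ^ b * M ^ ((b : ℤ) * ((k' : ℤ) - k)) = x ^ b * M ^ (((j + b * m : ℕ) : ℤ) - ((j' + b * t : ℕ) : ℤ)) := by
      rw [← hz, hxx, mul_pow, ← zpow_natCast (M ^ ((k' : ℤ) - k)) b, ← zpow_mul, mul_comm ((k' : ℤ) - k)]
    have h11 := mul_left_cancel₀ (pow_pos hx b).ne' h10
    exact zpow_right_injective₀ (by positivity) hM.ne' h11
  have hq : (j : ℤ) - j' = b * ((k' : ℤ) - k - m + t) := by
    push_cast at hexp
    linear_combination -hexp
  have hq0 : (k' : ℤ) - k - m + t = 0 := by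
    by_contra hne
    rcases lt_or_gt_of_ne hne with h | h
    · have : (b : ℤ) * ((k' : ℤ) - k - m + t) ≤ b * (-1) := mul_le_mul_of_nonneg_left (by omega) (by positivity)
      omega
    · have : (b : ℤ) * 1 ≤ b * ((k' : ℤ) - k - m + t) := mul_le_mul_of_nonneg_left (by omega) (by positivity)
      omega
  have hjj : j = j' := by
    rw [hq0] at hq
    simp at hq
    omega
  refine ⟨hjj, ?_⟩
  have hyy : y' = y * M ^ ((k : ℤ) - k') := by
    have h12 : x * y = x * (M ^ ((k' : ℤ) - k) * y') := by rw [hxy, hxx]; ring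
    have h13 := mul_left_cancel₀ hx.ne' h12
    rw [h13, mul_comm _ y', mul_assoc, ← zpow_add₀ hM0]
    simp
  intro i
  have h14 : x' * M ^ (t + i) = x * M ^ (m + i) := by
    rw [hxx, mul_assoc, ← zpow_natCast, ← zpow_natCast, ← zpow_add₀ hM0]
    congr 2
    push_cast; linarith
  have h15 : y' * M⁻¹ ^ (t + i) = y * M⁻¹ ^ (m + i) := by
    rw [hyy, mul_assoc, ← zpow_natCast, ← zpow_natCast, inv_zpow', inv_zpow', ← zpow_add₀ hM0]
    congr 2
    push_cast; linarith
  rw [h14, h15]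

/-- two runs with fixed suffixes have few equal values along a line -/
theorem core_of (h1 : RUNREP) (h2 : EPREP) (h3 : UNIQ) : CORE := by
  intro g g' c c' s s' T hT hmono hinj hline
  by_contra hcon
  push Not at hcon
  obtain ⟨x, y, hx, hy, hxy, hw, hcv, k, A, B, hA, hAu, hB, hBu, hmk, c1, c2, c3, eA, eB⟩ := h1 g c
  obtain ⟨x', y', hx', hy', hxy', hw', hcv', k', A', B', hA', hAu', hB', hBu', hmk', c1', c2', c3', eA', eB'⟩ := h1 g' c'
  obtain ⟨P, hPd, hPt, hP0, hPv⟩ := h2 g c x y hw hcv s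
  obtain ⟨P', hPd', hPt', hP0', hPv'⟩ := h2 g' c' x' y' hw' hcv' s'
  have hu := piv_pos g c
  have hu' := piv_pos g' c'
  have hL := lam_gt hu
  have hL' := lam_gt hu'
  have hjb := jj_bd c s
  have hjb' := jj_bd c' s'
  set b := sz s with hb
  set b' := sz s' with hb'
  set L := lam (piv g c) with hLdef
  set L' := lam (piv g' c') with hLdef'
  -- two elements
  obtain ⟨z1, hz1, z2, hz2, hne⟩ := Finset.one_lt_card.mp (by omega : 1 < T.card)
  have hex : ∃ w1 ∈ T, ∃ w2 ∈ T, w1.1 < w2.1 := by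
    rcases lt_trichotomy z1.1 z2.1 with h | h | h
    · exact ⟨z1, hz1, z2, hz2, h⟩
    · exact absurd (hinj z1 hz1 z2 hz2 h) hne
    · exact ⟨z2, hz2, z1, hz1, h⟩
  obtain ⟨⟨m1, t1⟩, hw1, ⟨m2, t2⟩, hw2, hlt⟩ := hex
  have hlt' : t1 < t2 := hmono _ hw1 _ hw2 hlt
  simp only at hlt
  have hDm : (0 : ℝ) < (m2 : ℝ) - m1 := by
    have : (m1 : ℝ) < m2 := by exact_mod_cast hlt
    linarith
  have hDt : (0 : ℝ) < (t2 : ℝ) - t1 := by
    have : (t1 : ℝ) < t2 := by exact_mod_cast hlt'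
    linarith
  have hlog : 0 < Real.log L := Real.log_pos hL
  have hlog' : 0 < Real.log L' := Real.log_pos hL'
  -- the set of parameters
  set Z : Finset ℝ := T.image (fun z => ((z.1 : ℝ) - m1) / ((m2 : ℝ) - m1)) with hZdef
  have hZcard : Z.card = T.card := by
    rw [hZdef]
    apply Finset.card_image_of_injOn
    intro z hz w hw heq
    simp only at heq
    have h5 : (z.1 : ℝ) - m1 = (w.1 : ℝ) - m1 := by
      rwa [div_left_inj' hDm.ne'] at heq
    have h6 : (z.1 : ℝ) = w.1 := by linarith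
    exact hinj z hz w hw (by exact_mod_cast h6)
  have hval : ∀ τ ∈ Z, ∑ e ∈ Finset.range (2 * b + 1),
      (P.coeff e * Real.exp (((e : ℝ) - b) * (Real.log L * m1))) *
        Real.exp ((((e : ℝ) - b) * (Real.log L * ((m2 : ℝ) - m1))) * τ) =
      ∑ e ∈ Finset.range (2 * b' + 1),
      (P'.coeff e * Real.exp (((e : ℝ) - b') * (Real.log L' * t1))) *
        Real.exp ((((e : ℝ) - b') * (Real.log L' * ((t2 : ℝ) - t1))) * τ) := by
    intro τ hτ
    rw [hZdef] at hτ
    obtain ⟨⟨m, t⟩, hz, rfl⟩ := Finset.mem_image.mp hτ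
    simp only
    have hl := hline _ hw1 _ hw2 _ hz
    simp only at hl
    have hlR : ((m2 : ℝ) - m1) * ((t : ℝ) - t1) = ((m : ℝ) - m1) * ((t2 : ℝ) - t1) := by exact_mod_cast hl
    have hFc := FF_c (hT _ hz).1
    have v1 := val (by linarith : 0 < L) P b m hPd _ (hPv m)
    have v2 := val (by linarith : 0 < L') P' b' t hPd' _ (hPv' t)
    have hFc' : ((desc root (ofr g c m s)).c : ℝ) = ((desc root (ofr g' c' t s')).c : ℝ) := by
      exact_mod_cast hFc
    rw [v1, v2] at hFc'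
    have em : (m : ℝ) = m1 + ((m2 : ℝ) - m1) * (((m : ℝ) - m1) / ((m2 : ℝ) - m1)) := by
      field_simp; ring
    have et : (t : ℝ) = t1 + ((t2 : ℝ) - t1) * (((m : ℝ) - m1) / ((m2 : ℝ) - m1)) := by
      rw [← mul_div_assoc, mul_comm ((t2 : ℝ) - t1), ← hlR]
      field_simp; ring
    calc _ = ∑ e ∈ Finset.range (2 * b + 1), P.coeff e * Real.exp (((e : ℝ) - b) * (Real.log L * m)) := by
          apply Finset.sum_congr rfl
          intro e _
          rw [mul_assoc, ← Real.exp_add]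
          congr 2
          rw [em]
          field_simp
          ring
      _ = _ := hFc'
      _ = _ := by
          apply Finset.sum_congr rfl
          intro e _
          rw [mul_assoc, ← Real.exp_add]
          congr 2
          conv_lhs => rw [et]
          ring
  have hxb : 0 < x ^ b := pow_pos hx b
  have hxb' : 0 < x' ^ b' := pow_pos hx' b'
  have hLp : 0 < L := by linarith
  have hLp' : 0 < L' := by linarith
  obtain ⟨r1, r2, r3⟩ := two_sums b b' (Real.log L * ((m2 : ℝ) - m1)) (Real.log L' * ((t2 : ℝ) - t1))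
    (mul_pos hlog hDm) (mul_pos hlog' hDt)
    (fun e => P.coeff e * Real.exp (((e : ℝ) - b) * (Real.log L * m1)))
    (fun e => P'.coeff e * Real.exp (((e : ℝ) - b') * (Real.log L' * t1))) Z hval (by omega)
    (by rw [hPt]; positivity) (by rw [hPt']; positivity)
  rw [hPt, hPt'] at r2
  rw [hP0, hP0'] at r3
  have f1 : ∀ (M : ℝ) (hM : 0 < M) (n m : ℕ), Real.exp ((((2 * n : ℕ) : ℝ) - n) * (Real.log M * m)) = M ^ (n * m) := by
    intro M hM n m
    have : (((2 * n : ℕ) : ℝ) - n) * (Real.log M * m) = ((n * m : ℕ) : ℝ) * Real.log M := by push_cast; ring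
    rw [this, Real.exp_nat_mul, Real.exp_log hM]
  have f2 : ∀ (M : ℝ) (hM : 0 < M) (n m : ℕ), Real.exp ((((0 : ℕ) : ℝ) - n) * (Real.log M * m)) = M⁻¹ ^ (n * m) := by
    intro M hM n m
    have : ((((0 : ℕ) : ℝ) - n) * (Real.log M * m)) = ((n * m : ℕ) : ℝ) * (- Real.log M) := by push_cast; ring
    rw [this, Real.exp_nat_mul, Real.exp_neg, Real.exp_log hM]
  rw [f1 L hLp, f1 L' hLp'] at r2
  rw [f2 L hLp, f2 L' hLp'] at r3
  have r2' : x ^ b * L ^ (jj c s + b * m1) = x' ^ b' * L' ^ (jj c' s' + b' * t1) := by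
    rw [pow_add, pow_add]; linarith
  have r3' : y ^ b * L⁻¹ ^ (jj c s + b * m1) = y' ^ b' * L'⁻¹ ^ (jj c' s' + b' * t1) := by
    rw [pow_add, pow_add]; linarith
  have hprod : (x * y) ^ b = (x' * y') ^ b' := by
    have e1 : (x * y) ^ b = (x ^ b * L ^ (jj c s + b * m1)) * (y ^ b * L⁻¹ ^ (jj c s + b * m1)) := by
      have : L ^ (jj c s + b * m1) * L⁻¹ ^ (jj c s + b * m1) = 1 := by
        rw [← mul_pow, mul_inv_cancel₀ hLp.ne', one_pow]
      rw [mul_pow]
      linear_combination (-(x ^ b * y ^ b)) * this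
    have e2 : (x' * y') ^ b' = (x' ^ b' * L' ^ (jj c' s' + b' * t1)) * (y' ^ b' * L'⁻¹ ^ (jj c' s' + b' * t1)) := by
      have : L' ^ (jj c' s' + b' * t1) * L'⁻¹ ^ (jj c' s' + b' * t1) = 1 := by
        rw [← mul_pow, mul_inv_cancel₀ hLp'.ne', one_pow]
      rw [mul_pow]
      linear_combination (-(x' ^ b' * y' ^ b')) * this
    rw [e1, e2, r2', r3']
  obtain ⟨u, hueq⟩ := Int.eq_ofNat_of_zero_le (by omega : 0 ≤ piv g c)
  obtain ⟨u', hueq'⟩ := Int.eq_ofNat_of_zero_le (by omega : 0 ≤ piv g' c')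
  have hpar : u = u' ∧ b = b' := by
    apply Pool.Agent.N505.MX.ratpow (by omega) (by omega) (by omega) (by omega)
    rw [hxy, hxy', hueq, hueq'] at hprod
    simpa using hprod
  obtain ⟨huu, hbb⟩ := hpar
  have hpiv : piv g' c' = piv g c := by rw [hueq, hueq', huu]
  have hLL : L' = L := by rw [hLdef, hLdef', hpiv]
  rw [hLL] at r2'
  rw [← hbb] at r2'
  rw [hpiv] at hAu' hBu' hmk' c1' c2' hxy'
  rw [hLL] at eA' eB' hw' hcv'
  obtain ⟨hjj, hvals⟩ := algebra (m := m1) (t := t1) hL hu (lam_sq hu) hx hx' (by rw [hxy, hxy']) hjb.1 hjb.2 hjb'.1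
    (by rw [hbb]; exact hjb'.2) r2' hA hAu hB hBu hmk c1 c2 c3 eA eB hA' hAu' hB' hBu' hmk' c1' c2' c3' eA' eB'
  have hweq : wv g c m1 = wv g' c' t1 := by
    have h4 := hvals 0
    simp only [add_zero] at h4
    have h5 : (wv g c m1 : ℝ) = (wv g' c' t1 : ℝ) := by rw [hw, hw', h4]
    exact_mod_cast h5
  have hceq : (desc root (rn g c m1)).c = (desc root (rn g' c' t1)).c := by
    have h4 := hvals 1
    have h5 : ((desc root (rn g c m1)).c : ℝ) = ((desc root (rn g' c' t1)).c : ℝ) := by rw [hcv, hcv', h4]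
    exact_mod_cast h5
  have hfin : ∀ (hcc : c = c'), rn g c m1 = rn g' c' t1 → False := by
    intro hcc hrr
    have hss : s = s' := by
      have hp1 : (pt s).1 + (pt s).2 = (pt s').1 + (pt s').2 := hbb
      have hp2 : (pt s).1 = (pt s').1 := by
        rw [← hcc] at hjj
        unfold jj at hjj
        cases c
        · simp at hjj; omega
        · simpa using hjj
      exact (em_inj s s' 1 1 one_pos one_pos (by omega) (by omega)).1
    apply (hT _ hw1).2
    simp only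
    unfold ofr
    rw [hrr, hcc, hss]
  cases c <;> cases c'
  · obtain ⟨p1, p2⟩ := run_false g m1
    obtain ⟨q1, q2⟩ := run_false g' t1
    exact hfin rfl (h3 _ _ hceq (Or.inl ⟨by rw [p2, q2, hweq], by rw [p1, q1, hpiv]⟩))
  · obtain ⟨p1, p2⟩ := run_false g m1
    obtain ⟨q1, q2⟩ := run_true g' t1
    have hrr := h3 _ _ hceq (Or.inr ⟨by rw [p2, q2, hweq], by rw [p1, q1, hpiv]⟩)
    apply ab_ne (rn g false m1)
    rw [p1]
    rw [hrr, q1, hpiv]
  · obtain ⟨p1, p2⟩ := run_true g m1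
    obtain ⟨q1, q2⟩ := run_false g' t1
    have hrr := h3 _ _ hceq (Or.inr ⟨by rw [p1, q1, hpiv], by rw [p2, q2, hweq]⟩)
    apply ab_ne (rn g true m1)
    rw [p1]
    rw [hrr, q1, hpiv]
  · obtain ⟨p1, p2⟩ := run_true g m1
    obtain ⟨q1, q2⟩ := run_true g' t1
    exact hfin rfl (h3 _ _ hceq (Or.inl ⟨by rw [p1, q1, hpiv], by rw [p2, q2, hweq]⟩))

end Pool.Agent.N681.MX
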